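import Pool.Agent.UDL.Fin4

/-!
Lower bounds for the maximum number `u k n` of edges of a `k`-planar unit distance graph with `n`
vertices, for `k = 4` and `k = 6`: at least `(15/4) n` and `4 n` up to `O(√n)`.
-/

namespace Pool.Agent.Results.MP_28a956_co.FourSixLower

open Pool.Agent.UDG

/-- `u 4 n ≥ (15/4) n - 45 √n` and `u 6 n ≥ 4 n - 42 √n` for every `n`. -/
theorem result (n : ℕ) :
    (15 / 4 : ℝ) * n - 45 * Real.sqrt n ≤ u 4 n ∧
    (4 : ℝ) * n - 42 * Real.sqrt n ≤ u 6 n :=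
  ⟨Pool.Agent.UDL.main4 n, Pool.Agent.UDL.main6 n⟩

end Pool.Agent.Results.MP_28a956_co.FourSixLower
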