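import Pool.Agent.UDG.Fin

/-!
The maximum number `u 1 n` of edges of a 1-planar unit distance graph with `n` vertices is at most
`3 n - √n / 12`.
-/

namespace Pool.Agent.Results.MP_28a956_co.SqrtUpperBound

open Pool.Agent.UDG

/-- A 1-planar unit distance graph with `n` vertices has at most `3 n - √n / 12` edges, and so
`u 1 n ≤ 3 n - √n / 12` for every `n`. -/
theorem result : (∀ (S : Finset (ℝ × ℝ)) (G : SimpleGraph (ℝ × ℝ)), IsDrawing 1 S G →
      (G.edgeSet.ncard : ℝ) ≤ 3 * S.card - Real.sqrt S.card / 12) ∧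
    ∀ n : ℕ, (u 1 n : ℝ) ≤ 3 * n - Real.sqrt n / 12 :=
  main

end Pool.Agent.Results.MP_28a956_co.SqrtUpperBound
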