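import Pool.Agent.UDL.Fin

/-!
The maximum number `u 2 n` of edges of a 2-planar unit distance graph with `n` vertices is at least
`(10/3) n - 33 √n`; so it is larger than `3 n` for `n > 9801`.
-/

namespace Pool.Agent.Results.MP_28a956_co.TwoPlanarLower

open Pool.Agent.UDG

/-- `u 2 n ≥ (10/3) n - 33 √n` for every `n`, and `u 2 n > 3 n` for `n > 9801`. -/
theorem result : (∀ n : ℕ, (10 / 3 : ℝ) * n - 33 * Real.sqrt n ≤ u 2 n) ∧
    ∀ n : ℕ, 9801 < n → 3 * n < u 2 n := by
  refine ⟨Pool.Agent.UDL.main2, ?_⟩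
  intro n hn
  have h := Pool.Agent.UDL.main2 n
  have h1 : (99 : ℝ) < Real.sqrt n := by
    rw [Real.lt_sqrt (by norm_num)]
    have : (9801 : ℝ) < n := by exact_mod_cast hn
    linarith
  have h2 : Real.sqrt n * Real.sqrt n = n := Real.mul_self_sqrt (Nat.cast_nonneg n)
  have h3 : (3 : ℝ) * n < u 2 n := by nlinarith
  exact_mod_cast h3

end Pool.Agent.Results.MP_28a956_co.TwoPlanarLower
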